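import Pool.Agent.Y62.CT.Main

set_option autoImplicit false

namespace Pool.Agent.Results.MP_181555_al.CubesAllRanks

open Pool.Agent.TH271.CU Pool.Agent.TH271.CV Pool.Agent.Helper156.OF Pool.Agent.Y62.CT

/-- The free group of exponent three on three generators, of order `3 ^ 7`: septuples
`(i, j, k, l, m, n, o)` over `ZMod 3`, where the product of `g` and `h` has the coordinates
`g.i + h.i`, `g.j + h.j`, `g.k + h.k`, `g.l + h.l + g.j * h.i`, `g.m + h.m + g.k * h.i`,
`g.n + h.n + g.k * h.j` and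
`g.o + h.o + (g.n + g.j * g.k) * h.i - (g.m + g.k * h.i) * h.j + (g.l + g.j * h.i) * h.k`. -/
abbrev B33 : Type := Pool.Agent.TH271.CV.B33

/-- The intersection of the kernels of all homomorphisms from the free group of rank `n` to the
group `B33` of order `3 ^ 7`. -/
def K (n : ℕ) : Subgroup (FreeGroup (Fin n)) :=
  ⨅ f : FreeGroup (Fin n) →* B33, f.ker

/-- The intersection of the kernels of all homomorphisms from the free group of rank `n` to the
groups `B33` and `GL 5 (ZMod 3)`. -/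
def L (n : ℕ) : Subgroup (FreeGroup (Fin n)) :=
  K n ⊓ ⨅ f : FreeGroup (Fin n) →* Matrix.GeneralLinearGroup (Fin 5) (ZMod 3), f.ker

/-- `τ` is the transvection `x i ↦ x i * x j` (with `i ≠ j`), fixing the other generators. -/
def IsTransvection {n : ℕ} (τ : MulAut (FreeGroup (Fin n))) : Prop :=
  ∃ i j : Fin n, i ≠ j ∧ τ (FreeGroup.of i) = FreeGroup.of i * FreeGroup.of j ∧
    ∀ k, k ≠ i → τ (FreeGroup.of k) = FreeGroup.of k

lemma mem_K {n : ℕ} {x : FreeGroup (Fin n)} :
    x ∈ K n ↔ ∀ f : FreeGroup (Fin n) →* B33, f x = 1 := by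
  unfold K
  rw [Subgroup.mem_iInf]
  rfl

instance finHomB (n : ℕ) : Finite (FreeGroup (Fin n) →* B33) :=
  Finite.of_equiv _ (FreeGroup.lift (α := Fin n) (β := B33))

instance finHomG (n : ℕ) :
    Finite (FreeGroup (Fin n) →* Matrix.GeneralLinearGroup (Fin 5) (ZMod 3)) :=
  Finite.of_equiv _ (FreeGroup.lift (α := Fin n) (β := Matrix.GeneralLinearGroup (Fin 5) (ZMod 3)))

lemma mem_L {n : ℕ} {x : FreeGroup (Fin n)} :
    x ∈ L n ↔ (∀ f : FreeGroup (Fin n) →* B33, f x = 1) ∧
      ∀ f : FreeGroup (Fin n) →* Matrix.GeneralLinearGroup (Fin 5) (ZMod 3), f x = 1 := by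
  unfold L
  rw [Subgroup.mem_inf, mem_K, Subgroup.mem_iInf]
  rfl

lemma L_char (n : ℕ) : (L n).Characteristic := by
  rw [Subgroup.characteristic_iff_le_comap]
  intro φ x hx
  rw [Subgroup.mem_comap]
  rw [mem_L] at hx ⊢
  exact ⟨fun f => hx.1 (f.comp φ.toMonoidHom), fun f => hx.2 (f.comp φ.toMonoidHom)⟩

lemma L_fin (n : ℕ) : (L n).FiniteIndex := by
  have h1 : (K n).FiniteIndex := by
    unfold K
    exact Subgroup.finiteIndex_iInf fun f => inferInstance
  have h2 : (⨅ f : FreeGroup (Fin n) →* Matrix.GeneralLinearGroup (Fin 5) (ZMod 3),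
      f.ker).FiniteIndex := Subgroup.finiteIndex_iInf fun f => inferInstance
  unfold L
  exact inferInstance

/-- The action on a set of homomorphisms. -/
def act (n : ℕ) (H : Type) [Group H] :
    MulAut (FreeGroup (Fin n)) →* Equiv.Perm (FreeGroup (Fin n) →* H) where
  toFun := fun ψ =>
    { toFun := fun f =>
        f.comp ((ψ⁻¹ : MulAut (FreeGroup (Fin n))) : FreeGroup (Fin n) →* FreeGroup (Fin n))
      invFun := fun f =>
        f.comp ((ψ : MulAut (FreeGroup (Fin n))) : FreeGroup (Fin n) →* FreeGroup (Fin n))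
      left_inv := fun f => by
        ext1 x
        show f (ψ⁻¹ (ψ (FreeGroup.of x))) = _
        rw [MulAut.inv_apply_self]
      right_inv := fun f => by
        ext1 x
        show f (ψ (ψ⁻¹ (FreeGroup.of x))) = _
        rw [MulAut.apply_inv_self] }
  map_one' := by
    ext1 f
    ext1 x
    rfl
  map_mul' := by
    intro a b
    ext1 f
    ext1 x
    show f ((a * b)⁻¹ (FreeGroup.of x)) = f (b⁻¹ (a⁻¹ (FreeGroup.of x)))
    rw [mul_inv_rev]
    rfl

lemma act_ker {n : ℕ} {H : Type} [Group H] {ψ : MulAut (FreeGroup (Fin n))}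
    (hψ : ψ ∈ (act n H).ker) (f : FreeGroup (Fin n) →* H) (x : FreeGroup (Fin n)) :
    f (ψ x) = f x := by
  have hψ' : act n H ψ = 1 := hψ
  have h5 : act n H ψ⁻¹ f = f := by
    rw [map_inv, hψ', inv_one]
    rfl
  have h6 : f ((ψ⁻¹)⁻¹ x) = f x := DFunLike.congr_fun h5 x
  rwa [inv_inv] at h6

lemma transv_eq {n : ℕ} {τ : MulAut (FreeGroup (Fin n))} {i j : Fin n} (hij : i ≠ j)
    (h1 : τ (FreeGroup.of i) = FreeGroup.of i * FreeGroup.of j)
    (h2 : ∀ k, k ≠ i → τ (FreeGroup.of k) = FreeGroup.of k) :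
    τ = eAut (i, true) (j, true) := by
  apply MulEquiv.toMonoidHom_injective
  ext1 k
  show τ (FreeGroup.of k) = eAut (i, true) (j, true) (FreeGroup.of k)
  by_cases hk : k = i
  · rw [hk, h1]; exact (e_gl (x := ((i, true) : Lt (Fin n))) (a := ((j, true))) hij).symm
  · rw [h2 k hk]; exact (eAut_fix (i, true) (j, true) (k, true) hk).symm

/-- A normal subgroup with one cube contains all of them. -/
lemma Nt_le {n : ℕ} {N : Subgroup (MulAut (FreeGroup (Fin n)))} (hN : N.Normal)
    (h : ∃ τ : MulAut (FreeGroup (Fin n)), IsTransvection τ ∧ τ * τ * τ ∈ N) : Nt n ≤ N := by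
  obtain ⟨τ, ⟨i, j, hij, h1, h2⟩, hτ⟩ := h
  rw [transv_eq hij h1 h2] at hτ
  have h0 := cube_all hN hij hτ
  unfold Nt
  apply Subgroup.normalClosure_le_normal
  rintro _ ⟨x, a, rfl⟩
  exact h0 x a

/-- The group theoretic core. -/
lemma core {n : ℕ} (h5 : 5 ≤ n) {ψ : MulAut (FreeGroup (Fin n))}
    (h1 : ∀ (f : FreeGroup (Fin n) →* B33) (x : FreeGroup (Fin n)), f (ψ x) = f x)
    (h2 : ∀ (f : FreeGroup (Fin n) →* Matrix.GeneralLinearGroup (Fin 5) (ZMod 3))
      (x : FreeGroup (Fin n)), f (ψ x) = f x) : ψ ∈ Nt n :=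
  (core_t h5 h1).2 fun a b c _ _ => Phi_cong a b c h2

/-- Let `n ≥ 5`. The subgroup `L n` of `F_n` is characteristic of finite index, and every normal
subgroup `N` of `Aut (F_n)` that contains the cube of a transvection has finite index and is a
congruence subgroup: it contains every automorphism acting trivially on `F_n / L n`, and if it
contains the inner automorphisms then it contains every automorphism acting as an inner
automorphism on `F_n / L n`. -/
theorem result : ∀ n : ℕ, 5 ≤ n →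
    (L n).Characteristic ∧ (L n).FiniteIndex ∧
    ∀ N : Subgroup (MulAut (FreeGroup (Fin n))), N.Normal →
      (∃ τ : MulAut (FreeGroup (Fin n)), IsTransvection τ ∧ τ * τ * τ ∈ N) →
      N.FiniteIndex ∧
      (∀ ψ : MulAut (FreeGroup (Fin n)), (∀ x : FreeGroup (Fin n), ψ x * x⁻¹ ∈ L n) → ψ ∈ N) ∧
      ((∀ g : FreeGroup (Fin n), MulAut.conj g ∈ N) →
        ∀ ψ : MulAut (FreeGroup (Fin n)),
          (∃ g : FreeGroup (Fin n), ∀ x : FreeGroup (Fin n),
            ψ x * (g * x * g⁻¹)⁻¹ ∈ L n) → ψ ∈ N) := by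
  intro n h5
  refine ⟨L_char n, L_fin n, ?_⟩
  intro N hN hτ
  have hle := Nt_le hN hτ
  refine ⟨?_, fun ψ hψ => hle (core h5 (fun f x => ?_) fun f x => ?_), ?_⟩
  · have f1 : (act n B33).ker.FiniteIndex := inferInstance
    have f2 : (act n (Matrix.GeneralLinearGroup (Fin 5) (ZMod 3))).ker.FiniteIndex :=
      inferInstance
    refine Subgroup.finiteIndex_of_le
      (H := (act n B33).ker ⊓ (act n (Matrix.GeneralLinearGroup (Fin 5) (ZMod 3))).ker) ?_
    rintro ψ ⟨h1, h2⟩
    exact hle (core h5 (act_ker h1) (act_ker h2))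
  · have := (mem_L.1 (hψ x)).1 f
    rwa [map_mul, map_inv, mul_inv_eq_one] at this
  · have := (mem_L.1 (hψ x)).2 f
    rwa [map_mul, map_inv, mul_inv_eq_one] at this
  · rintro hinn ψ ⟨g, hg⟩
    have h7 : (MulAut.conj g)⁻¹ * ψ ∈ N := by
      apply hle
      have h9 : ∀ x, ((MulAut.conj g)⁻¹ * ψ) x = g⁻¹ * ψ x * g := fun x => by
        rw [MulAut.mul_apply, MulAut.conj_inv_apply]
      refine core h5 (fun f x => ?_) fun f x => ?_
      · have h8 := (mem_L.1 (hg x)).1 f
        rw [h9]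
        simp only [map_mul, map_inv] at h8 ⊢
        rw [mul_inv_eq_one] at h8
        rw [h8]
        group
      · have h8 := (mem_L.1 (hg x)).2 f
        rw [h9]
        simp only [map_mul, map_inv] at h8 ⊢
        rw [mul_inv_eq_one] at h8
        rw [h8]
        group
    have h10 := mul_mem (hinn g) h7
    rwa [mul_inv_cancel_left] at h10

end Pool.Agent.Results.MP_181555_al.CubesAllRanks
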