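import Pool.Agent.Y62.CT.Index

set_option autoImplicit false

namespace Pool.Agent.Results.MP_181555_al.CubesKernelOrder

open Pool.Agent.TH271.CU Pool.Agent.TH271.CV Pool.Agent.Helper156.OF Pool.Agent.Y62.CT

/-- The free group of exponent three on three generators, of order `3 ^ 7`: septuples
`(i, j, k, l, m, n, o)` over `ZMod 3`, where the product of `g` and `h` has the coordinates
`g.i + h.i`, `g.j + h.j`, `g.k + h.k`, `g.l + h.l + g.j * h.i`, `g.m + h.m + g.k * h.i`,
`g.n + h.n + g.k * h.j` and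
`g.o + h.o + (g.n + g.j * g.k) * h.i - (g.m + g.k * h.i) * h.j + (g.l + g.j * h.i) * h.k`. -/
abbrev B33 : Type := Pool.Agent.TH271.CV.B33

/-- The intersection of the kernels of all homomorphisms from the free group of rank `n` to the
group `B33` of order `3 ^ 7`. -/
def K (n : ℕ) : Subgroup (FreeGroup (Fin n)) :=
  ⨅ f : FreeGroup (Fin n) →* B33, f.ker

/-- `τ` is the transvection `x i ↦ x i * x j` (with `i ≠ j`), fixing the other generators. -/
def IsTransvection {n : ℕ} (τ : MulAut (FreeGroup (Fin n))) : Prop :=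
  ∃ i j : Fin n, i ≠ j ∧ τ (FreeGroup.of i) = FreeGroup.of i * FreeGroup.of j ∧
    ∀ k, k ≠ i → τ (FreeGroup.of k) = FreeGroup.of k

/-- The normal closure in `Aut (F_n)` of the cubes of the transvections. -/
def Cubes (n : ℕ) : Subgroup (MulAut (FreeGroup (Fin n))) :=
  Subgroup.normalClosure {y | ∃ τ : MulAut (FreeGroup (Fin n)), IsTransvection τ ∧ y = τ * τ * τ}

/-- The group of the inner automorphisms. -/
def Inn (n : ℕ) : Subgroup (MulAut (FreeGroup (Fin n))) :=
  (MulAut.conj : FreeGroup (Fin n) →* MulAut (FreeGroup (Fin n))).range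

lemma mem_K {n : ℕ} {x : FreeGroup (Fin n)} :
    x ∈ K n ↔ ∀ f : FreeGroup (Fin n) →* B33, f x = 1 := by
  unfold K
  rw [Subgroup.mem_iInf]
  rfl

/-- The group of the automorphisms of `F_n` that act trivially on `F_n / K n`. -/
def Triv (n : ℕ) : Subgroup (MulAut (FreeGroup (Fin n))) where
  carrier := {ψ | ∀ x : FreeGroup (Fin n), ψ x * x⁻¹ ∈ K n}
  mul_mem' := by
    intro a b ha hb x
    have e : (a * b) x * x⁻¹ = a (b x) * (b x)⁻¹ * (b x * x⁻¹) := by
      rw [MulAut.mul_apply]; group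
    rw [e]
    exact mul_mem (ha _) (hb _)
  one_mem' := fun x => by
    rw [MulAut.one_apply, mul_inv_cancel]; exact one_mem _
  inv_mem' := by
    intro a ha x
    have h := inv_mem (ha (a⁻¹ x))
    rw [MulAut.apply_inv_self, mul_inv_rev, inv_inv] at h
    exact h

lemma Triv_eq (n : ℕ) : Triv n = TB (Fin n) := by
  ext ψ
  constructor
  · intro h f x
    have := mem_K.1 (h x) f
    rwa [map_mul, map_inv, mul_inv_eq_one] at this
  · intro h x
    rw [mem_K]
    intro f
    rw [map_mul, map_inv, h f x, mul_inv_cancel]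

instance Triv_normal (n : ℕ) : (Triv n).Normal where
  conj_mem := by
    intro ψ hψ γ x
    have h1 : (γ * ψ * γ⁻¹) x * x⁻¹ = γ (ψ (γ⁻¹ x) * (γ⁻¹ x)⁻¹) := by
      rw [MulAut.mul_apply, MulAut.mul_apply, map_mul, map_inv, MulAut.apply_inv_self]
    rw [h1]
    have h2 := hψ (γ⁻¹ x)
    rw [mem_K] at h2 ⊢
    intro f
    exact h2 (f.comp γ.toMonoidHom)

instance Inn_normal (n : ℕ) : (Inn n).Normal where
  conj_mem := by
    rintro _ ⟨g, rfl⟩ φ
    exact ⟨φ g, conj_map φ g⟩

lemma mem_sup_iff {n : ℕ} (ψ : MulAut (FreeGroup (Fin n))) :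
    ψ ∈ Triv n ⊔ Inn n ↔ ∃ g : FreeGroup (Fin n), ∀ x : FreeGroup (Fin n),
      ψ x * (g * x * g⁻¹)⁻¹ ∈ K n := by
  rw [Subgroup.mem_sup_of_normal_left]
  constructor
  · rintro ⟨ν, hν, _, ⟨g, rfl⟩, rfl⟩
    refine ⟨ν g, fun x => ?_⟩
    have e : (ν * MulAut.conj g) x * (ν g * x * (ν g)⁻¹)⁻¹ = ν g * (ν x * x⁻¹) * (ν g)⁻¹ := by
      rw [MulAut.mul_apply, MulAut.conj_apply, map_mul, map_mul, map_inv]
      group
    rw [e]
    have hn : (K n).Normal := by
      unfold K
      exact Subgroup.normal_iInf_normal fun f => inferInstance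
    exact hn.conj_mem _ (hν x) _
  · rintro ⟨g, hg⟩
    refine ⟨ψ * (MulAut.conj g)⁻¹, ?_, MulAut.conj g, ⟨g, rfl⟩, by group⟩
    intro x
    have h := hg (g⁻¹ * x * g)
    have e : ψ (g⁻¹ * x * g) * (g * (g⁻¹ * x * g) * g⁻¹)⁻¹ =
        (ψ * (MulAut.conj g)⁻¹) x * x⁻¹ := by
      rw [MulAut.mul_apply, MulAut.conj_inv_apply]
      group
    rwa [e] at h

/-- The group of the automorphisms of `F_n` that act on `F_n / K n` as an inner automorphism. -/
def TrivOut (n : ℕ) : Subgroup (MulAut (FreeGroup (Fin n))) where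
  carrier := {ψ | ∃ g : FreeGroup (Fin n), ∀ x : FreeGroup (Fin n),
      ψ x * (g * x * g⁻¹)⁻¹ ∈ K n}
  mul_mem' := fun {a b} ha hb => (mem_sup_iff (a * b)).1
    (mul_mem ((mem_sup_iff a).2 ha) ((mem_sup_iff b).2 hb))
  one_mem' := (mem_sup_iff 1).1 (one_mem _)
  inv_mem' := fun {a} ha => (mem_sup_iff a⁻¹).1 (inv_mem ((mem_sup_iff a).2 ha))

lemma TrivOut_eq (n : ℕ) : TrivOut n = Triv n ⊔ Inn n := by
  ext ψ
  exact (mem_sup_iff ψ).symm

lemma transv_eq {n : ℕ} {τ : MulAut (FreeGroup (Fin n))} {i j : Fin n} (hij : i ≠ j)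
    (h1 : τ (FreeGroup.of i) = FreeGroup.of i * FreeGroup.of j)
    (h2 : ∀ k, k ≠ i → τ (FreeGroup.of k) = FreeGroup.of k) :
    τ = eAut (i, true) (j, true) := by
  apply MulEquiv.toMonoidHom_injective
  ext1 k
  show τ (FreeGroup.of k) = eAut (i, true) (j, true) (FreeGroup.of k)
  by_cases hk : k = i
  · rw [hk, h1]; exact (e_gl (x := ((i, true) : Lt (Fin n))) (a := ((j, true))) hij).symm
  · rw [h2 k hk]; exact (eAut_fix (i, true) (j, true) (k, true) hk).symm

lemma isT {n : ℕ} {i j : Fin n} (hij : i ≠ j) :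
    IsTransvection (eAut (i, true) (j, true) : MulAut (FreeGroup (Fin n))) :=
  ⟨i, j, hij, e_gl (x := ((i, true) : Lt (Fin n))) (a := ((j, true))) hij,
    fun k hk => eAut_fix (i, true) (j, true) (k, true) hk⟩

lemma Cubes_eq {n : ℕ} (h5 : 5 ≤ n) : Cubes n = Nt n := by
  have hij : (⟨0, by omega⟩ : Fin n) ≠ ⟨1, by omega⟩ := by
    intro h
    have := congrArg Fin.val h
    simp at this
  apply le_antisymm
  · unfold Cubes
    apply Subgroup.normalClosure_le_normal
    rintro _ ⟨τ, ⟨i, j, hij, h1, h2⟩, rfl⟩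
    rw [transv_eq hij h1 h2]
    exact Subgroup.subset_normalClosure ⟨_, _, rfl⟩
  · have hn : (Cubes n).Normal := Subgroup.normalClosure_normal
    have h0 := cube_all hn hij (Subgroup.subset_normalClosure ⟨_, isT hij, rfl⟩)
    unfold Nt
    apply Subgroup.normalClosure_le_normal
    rintro _ ⟨x, a, rfl⟩
    exact h0 x a

/-- Let `n ≥ 5`. The kernel of the homomorphism from the quotient of `Aut (F_n)` by the normal
closure of the cubes of the transvections to `Aut (F_n / K n)` has order `3 ^ (n choose 3)`. The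
kernel of the homomorphism from the quotient of `Out (F_n)` by the normal closure of the cubes of
the transvections to `Out (F_n / K n)` has order `3 ^ (n choose 3)` if `n` is `1` modulo `3`, and
is trivial otherwise. -/
theorem result : ∀ n : ℕ, 5 ≤ n →
    Cubes n ≤ Triv n ∧ (Cubes n).relIndex (Triv n) = 3 ^ n.choose 3 ∧
    Cubes n ⊔ Inn n ≤ TrivOut n ∧
    (Cubes n ⊔ Inn n).relIndex (TrivOut n) = if n % 3 = 1 then 3 ^ n.choose 3 else 1 := by
  intro n h5
  have hle : Cubes n ≤ Triv n := by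
    rw [Cubes_eq h5, Triv_eq]
    exact Nt_le_TB
  have hrel : (Cubes n).relIndex (Triv n) = 3 ^ n.choose 3 := by
    rw [Cubes_eq h5, Triv_eq]
    exact relIndex_eq h5
  have hsup : TrivOut n = Triv n ⊔ (Cubes n ⊔ Inn n) := by
    rw [TrivOut_eq, ← sup_assoc, sup_eq_left.2 hle]
  have hCn : (Cubes n).Normal := Subgroup.normalClosure_normal
  have hN : (Cubes n ⊔ Inn n).Normal := inferInstance
  refine ⟨hle, hrel, ?_, ?_⟩
  · rw [hsup]; exact le_sup_right
  · rw [hsup, Subgroup.relIndex_sup_right]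
    by_cases h1 : n % 3 = 1
    · rw [if_pos h1, ← hrel, ← Subgroup.inf_relIndex_right]
      congr 1
      apply le_antisymm
      · intro ψ hψ
        have h2 : ψ ∈ Cubes n ⊔ Inn n := hψ.1
        have h3 : ψ ∈ Triv n := hψ.2
        rw [Subgroup.mem_sup_of_normal_left] at h2
        obtain ⟨ν, hν, _, ⟨g, rfl⟩, rfl⟩ := h2
        rw [Cubes_eq h5] at hν ⊢
        rw [Triv_eq] at h3
        have k0 := Nt_le_P0 h5 hν
        have k1 := core_t h5 h3
        have hg : PP (MulAut.conj g) := by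
          have : MulAut.conj g = ν⁻¹ * (ν * MulAut.conj g) := by group
          rw [this]
          exact (PP_mul (PP_inv k0.1) k1.1).1
        refine k1.2 fun a b c hab hbc => ?_
        rw [Phi_mul a b c k0.1 hg, Phi_P0 a b c k0, zero_add]
        have hcard : (Fintype.card (Fin n) : ZMod 3) = 1 := by
          rw [Fintype.card_fin]
          have : n = 3 * (n / 3) + 1 := by omega
          rw [this, Nat.cast_add, Nat.cast_mul]
          have h3 : ((3 : ℕ) : ZMod 3) = 0 := rfl
          rw [h3]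
          simp
        have h3 : ∀ a b : Fin n, ∃ m, m ≠ a ∧ m ≠ b := by
          intro a b
          obtain ⟨m, m1, m2, _⟩ := exists_out3 h5 a b a
          exact ⟨m, m1, m2⟩
        exact Phi_conj h3 hcard hg (ne_of_lt hab) (ne_of_lt (hab.trans hbc)) (ne_of_lt hbc)
      · exact le_inf le_sup_left hle
    · rw [if_neg h1, Subgroup.relIndex_eq_one]
      have h0 : ∀ x a : Lt (Fin n), eAut x a * eAut x a * eAut x a ∈ Cubes n ⊔ Inn n := by
        intro x a
        rw [Cubes_eq h5]
        exact Subgroup.mem_sup_left (Subgroup.subset_normalClosure ⟨x, a, rfl⟩)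
      have h4 := N3_le_out h5 h1 hN h0 fun g => Subgroup.mem_sup_right ⟨g, rfl⟩
      intro ψ hψ
      rw [Triv_eq] at hψ
      exact h4 (core3 (by rw [Fintype.card_fin]; exact h5) (ρ := fun i : Fin n => (i : ℕ))
        Fin.val_injective hψ)

end Pool.Agent.Results.MP_181555_al.CubesKernelOrder
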